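import Mathlib

/-!
# Inversion-minimal matrices of a fixed RSK shape need not be Hankel

For the partition `(8,8,1,1)` *no* inversion-minimal `4 × 4` matrix of that RSK shape is Hankel:
the matrix `![![0,3,0,1],![3,0,2,0],![0,2,0,3],![1,0,3,0]]` has this shape and inversion
number `43`, whereas every Hankel matrix of this shape has inversion number at least `45`.
-/

namespace Pool.Agent.Results.MP_5baea4_co.NotHankel

/-- Row insertion of the letter `x` into a row: `x` replaces the first entry `> x` (returned as
the bumped letter), or is appended at the end if there is no such entry. -/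
def insertRow (x : ℕ) : List ℕ → List ℕ × Option ℕ
  | [] => ([x], none)
  | y :: ys => if x < y then (x :: ys, some y) else (y :: (insertRow x ys).1, (insertRow x ys).2)

/-- Row insertion of a letter (if any) into a tableau, given as the list of its rows. -/
def insertTab : Option ℕ → List (List ℕ) → List (List ℕ)
  | none, T => T
  | some x, [] => [[x]]
  | some x, r :: rs => (insertRow x r).1 :: insertTab (insertRow x r).2 rs

/-- The `P`-tableau of a word under Robinson–Schensted–Knuth row insertion. -/
def tableau (w : List ℕ) : List (List ℕ) := w.foldl (fun T x => insertTab (some x) T) []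

/-- The bottom row of the two-line array of `M`: the pairs `(i,j)` are listed `m_{i,j}` times,
ordered by `i` and then by `j`; we keep the entries `j`. -/
def word {n : ℕ} (M : Fin n → Fin n → ℕ) : List ℕ :=
  (List.finRange n).flatMap fun i =>
    (List.finRange n).flatMap fun j => List.replicate (M i j) (j : ℕ)

/-- The RSK shape of `M`: the list of the row lengths of its `P`-tableau. -/
def shape {n : ℕ} (M : Fin n → Fin n → ℕ) : List ℕ := (tableau (word M)).map List.length

/-- The inversion number `∑_{i<k, j>l} m_{i,j} m_{k,l}`. -/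
def inv {n : ℕ} (M : Fin n → Fin n → ℕ) : ℕ :=
  ∑ i, ∑ j, ∑ k, ∑ l, if i < k ∧ l < j then M i j * M k l else 0

/-- `M` is minimal for `lam`: it has shape `lam` and no matrix of shape `lam` has a smaller
inversion number. -/
def IsMinimal {n : ℕ} (lam : Fin n → ℕ) (M : Fin n → Fin n → ℕ) : Prop :=
  shape M = List.ofFn lam ∧ ∀ N : Fin n → Fin n → ℕ, shape N = List.ofFn lam → inv M ≤ inv N

/-- `M` is Hankel: its entries depend only on `i + j`. -/
def IsHankel {n : ℕ} (M : Fin n → Fin n → ℕ) : Prop :=
  ∃ s : ℕ → ℕ, ∀ i j : Fin n, M i j = s ((i : ℕ) + (j : ℕ))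

/-! ### Number of letters -/

theorem insertRow_len (x : ℕ) (r : List ℕ) :
    (insertRow x r).1.length + (insertRow x r).2.toList.length = r.length + 1 := by
  induction r with
  | nil => simp [insertRow]
  | cons y ys ih =>
    unfold insertRow
    split
    · simp
    · simp only [List.length_cons] at ih ⊢
      omega

theorem insertTab_len (o : Option ℕ) (T : List (List ℕ)) :
    ((insertTab o T).map List.length).sum = (T.map List.length).sum + o.toList.length := by
  induction T generalizing o with
  | nil => cases o <;> simp [insertTab]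
  | cons r rs ih =>
    cases o with
    | none => simp [insertTab]
    | some x =>
      have h := insertRow_len x r
      have h2 := ih (insertRow x r).2
      simp only [insertTab, List.map_cons, List.sum_cons, h2]
      simp only [Option.toList_some, List.length_cons, List.length_nil]
      omega

theorem tableau_len (w : List ℕ) : ((tableau w).map List.length).sum = w.length := by
  have key : ∀ (w : List ℕ) (T : List (List ℕ)),
      ((w.foldl (fun T x => insertTab (some x) T) T).map List.length).sum
        = (T.map List.length).sum + w.length := by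
    intro w
    induction w with
    | nil => intro T; simp
    | cons a l ih =>
      intro T
      rw [List.foldl_cons, ih, insertTab_len]
      simp only [Option.toList_some, List.length_cons, List.length_nil]
      omega
  simpa [tableau] using key w []

/-! ### The Hankel matrices of size 4 -/

/-- the bottom word of the Hankel matrix with parameters `a, b, c, d, e, f, g` -/
def hw (a b c d e f g : ℕ) : List ℕ :=
  (List.replicate a 0 ++ (List.replicate b 1 ++ (List.replicate c 2 ++ List.replicate d 3))) ++
  ((List.replicate b 0 ++ (List.replicate c 1 ++ (List.replicate d 2 ++ List.replicate e 3))) ++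
  ((List.replicate c 0 ++ (List.replicate d 1 ++ (List.replicate e 2 ++ List.replicate f 3))) ++
  (List.replicate d 0 ++ (List.replicate e 1 ++ (List.replicate f 2 ++ List.replicate g 3)))))

/-- the inversion number of the Hankel matrix with parameters `a, b, c, d, e, f, g` -/
def hinv (b c d e f : ℕ) : ℕ :=
  b * (b + c + d) + c * ((b + c + d) + (c + d + e)) +
    d * ((b + c + d) + (c + d + e) + (d + e + f)) +
  (c * (c + d) + d * ((c + d) + (d + e)) + e * ((c + d) + (d + e) + (e + f))) +
  (d * d + e * (d + e) + f * (d + e + f))

/-- the check for one parameter vector -/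
def chk1 (a b c d e f g : ℕ) : Bool :=
  Nat.ble 44 (hinv b c d e f) || !((tableau (hw a b c d e f g)).map List.length == [8, 8, 1, 1])

/-- the finite check over all Hankel matrices with entry sum 18 -/
def chk : Bool :=
  (List.range 5).all fun d => (List.range ((18 - 4 * d) / 3 + 1)).all fun c =>
  (List.range ((18 - 4 * d - 3 * c) / 3 + 1)).all fun e =>
  (List.range ((18 - 4 * d - 3 * c - 3 * e) / 2 + 1)).all fun b =>
  (List.range ((18 - 4 * d - 3 * c - 3 * e - 2 * b) / 2 + 1)).all fun f =>
  (List.range ((18 - 4 * d - 3 * c - 3 * e - 2 * b - 2 * f) + 1)).all fun g =>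
    chk1 (18 - 4 * d - 3 * c - 3 * e - 2 * b - 2 * f - g) b c d e f g

set_option maxRecDepth 100000 in
theorem chk_true : chk = true := by decide +kernel

theorem hankel_bound {M : Fin 4 → Fin 4 → ℕ} (hM : IsHankel M)
    (hs : shape M = [8, 8, 1, 1]) : 44 ≤ inv M := by
  obtain ⟨s, hs'⟩ := hM
  have hMs : M = fun (i j : Fin 4) => s ((i : ℕ) + (j : ℕ)) := by
    funext i j; exact hs' i j
  have hword : word M = hw (s 0) (s 1) (s 2) (s 3) (s 4) (s 5) (s 6) := by
    rw [hMs]
    simp [word, hw, List.finRange_succ]
  have hinvM : inv M = hinv (s 1) (s 2) (s 3) (s 4) (s 5) := by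
    rw [hMs]
    simp [inv, hinv, Fin.sum_univ_four]
    ring
  have hlen : s 0 + 2 * s 1 + 3 * s 2 + 4 * s 3 + 3 * s 4 + 2 * s 5 + s 6 = 18 := by
    have h := tableau_len (word M)
    have h2 : (tableau (word M)).map List.length = [8, 8, 1, 1] := hs
    rw [h2, hword] at h
    simp [hw] at h
    omega
  have hshape : (tableau (hw (s 0) (s 1) (s 2) (s 3) (s 4) (s 5) (s 6))).map List.length
      = [8, 8, 1, 1] := by rw [← hword]; exact hs
  have h := chk_true
  simp only [chk, List.all_eq_true, List.mem_range] at h
  have h3 := h (s 3) (by omega) (s 2) (by omega) (s 4) (by omega) (s 1) (by omega) (s 5)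
    (by omega) (s 6) (by omega)
  have ha : 18 - 4 * s 3 - 3 * s 2 - 3 * s 4 - 2 * s 1 - 2 * s 5 - s 6 = s 0 := by omega
  rw [ha] at h3
  unfold chk1 at h3
  rw [hshape] at h3
  simp at h3
  rw [hinvM]
  exact h3

/-- A non-Hankel matrix of shape `(8,8,1,1)` with inversion number `43`. -/
def M0 : Fin 4 → Fin 4 → ℕ := ![![0, 3, 0, 1], ![3, 0, 2, 0], ![0, 2, 0, 3], ![1, 0, 3, 0]]

theorem M0_shape : shape M0 = [8, 8, 1, 1] := by decide +kernel

theorem M0_inv : inv M0 = 43 := by decide +kernel

/-- **Negative answer.** There is a partition `lam` with `4` positive parts, namely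
`(8,8,1,1)`, that has an inversion-minimal matrix, and *none* of whose inversion-minimal matrices
is Hankel. -/
theorem result : ∃ (n : ℕ) (lam : Fin n → ℕ), Antitone lam ∧ (∀ i, 0 < lam i) ∧
    (∃ M, IsMinimal lam M) ∧ ∀ M, IsMinimal lam M → ¬ IsHankel M := by
  refine ⟨4, ![8, 8, 1, 1], by decide, by decide, ?_, ?_⟩
  · -- existence of a minimal matrix
    classical
    have hex : ∃ v, ∃ M : Fin 4 → Fin 4 → ℕ, shape M = List.ofFn ![8, 8, 1, 1] ∧ inv M = v :=
      ⟨43, M0, by rw [M0_shape]; decide, M0_inv⟩
    obtain ⟨M, hM, hv⟩ := Nat.find_spec hex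
    refine ⟨M, hM, fun N hN => ?_⟩
    rw [hv]
    exact Nat.find_min' hex ⟨N, hN, rfl⟩
  · rintro M ⟨hM, hmin⟩ hH
    have h1 : inv M ≤ 43 := by
      rw [← M0_inv]
      exact hmin M0 (by rw [M0_shape]; decide)
    have h2 : 44 ≤ inv M := hankel_bound hH (by rw [hM]; decide)
    omega

end Pool.Agent.Results.MP_5baea4_co.NotHankel
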